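import Pool.Agent.Lib.MP_6460d9_an.Main

namespace Pool.Agent.Results.MP_6460d9_an.SD2P

open Pool.Agent.Lib.MP_6460d9_an

theorem result {M : Type*} [MetricSpace M] (p : M)
    (Y : Type*) [NormedAddCommGroup Y] [NormedSpace ℝ Y]
    (hM : ¬ Bornology.IsBounded (Set.univ : Set M) ∨
      ¬ ∃ δ : ℝ, 0 < δ ∧ ∀ x y : M, x ≠ y → δ ≤ dist x y) :
    SD2P (Lip0 p Y) := by
  refine sd2p_of_annuli fun R hR N => ?_
  rcases hM with h | h
  · exact hasAnnuli_of_unbounded hR N h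
  · refine hasAnnuli_of_small hR N fun η hη => ?_
    by_contra hc
    push Not at hc
    exact h ⟨η, hη, hc⟩

end Pool.Agent.Results.MP_6460d9_an.SD2P
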